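import Mathlib

set_option autoImplicit false

namespace Pool.Agent.H297.Beanstalk

/-- `Move m m'`: in Beanstalk the player at `m` may move to `m'`. -/
def Move (m m' : ℕ) : Prop :=
  (Even m ∧ m' = m / 2) ∨ (Odd m ∧ (m' = 3 * m + 1 ∨ m' = 3 * m - 1))

/-- The mover wins from `n`: `n` lies in every set `S` of positions that contains each `m` from which
some move either reaches `1` or leaves the opponent only replies that avoid `1` and lie in `S`. -/
def Wins (n : ℕ) : Prop :=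
  ∀ S : Set ℕ, (∀ m : ℕ, (∃ m' : ℕ, Move m m' ∧
    (m' = 1 ∨ ∀ m'' : ℕ, Move m' m'' → m'' ≠ 1 ∧ m'' ∈ S)) → m ∈ S) → n ∈ S

/-- One-player reachability: `m > 1` with `3m+1` a power of four, or
`3m+1 = 2^(2j+1) q` or `3m-1 = 2^(2j+1) q` with `q` already reached. -/
inductive Reach : ℕ → Prop
  | base (m b : ℕ) : 1 < m → 3 * m + 1 = 4 ^ b → Reach m
  | step (m q j : ℕ) : (3 * m + 1 = 2 ^ (2 * j + 1) * q ∨ 3 * m - 1 = 2 ^ (2 * j + 1) * q) →
      Reach q → Reach m

theorem four_pow_odd {b : ℕ} (hb : 1 ≤ b) : 4 ∣ 4 ^ b := dvd_pow_self 4 (by omega)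

theorem four_pow_mod3 (b : ℕ) : 4 ^ b % 3 = 1 := by
  induction b with
  | zero => rfl
  | succ n ih => rw [pow_succ]; omega

theorem two_pow_odd (j : ℕ) : 2 ^ (2 * j + 1) = 2 * 4 ^ j := by
  rw [pow_succ, pow_mul]; norm_num; ring

theorem Reach.odd_gt {m : ℕ} (h : Reach m) : m % 2 = 1 ∧ 1 < m := by
  induction h with
  | base m b h1 h2 =>
    have hb : 1 ≤ b := by
      rcases Nat.eq_zero_or_pos b with h | h
      · subst h; simp at h2; omega
      · exact h
    have := four_pow_odd hb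
    omega
  | step m q j h1 h2 ih =>
    rw [two_pow_odd] at h1
    have h4 : 1 ≤ 4 ^ j := Nat.one_le_pow _ _ (by norm_num)
    rcases Nat.eq_zero_or_pos j with h | h
    · subst h; simp at h1; omega
    · have h5 := four_pow_odd h
      obtain ⟨t, ht⟩ := h5
      have h6 : 1 ≤ t := by omega
      have h7 : q ≤ t * q := Nat.le_mul_of_pos_left q h6
      rw [ht] at h1
      have h8 : 2 * (4 * t) * q = 8 * (t * q) := by ring
      rw [h8] at h1
      omega

/-- The predicted winning set of the two-player game. -/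
def SR (m : ℕ) : Prop := m = 1 ∨ (∃ j, m = 2 * 4 ^ j) ∨ (∃ j q, Reach q ∧ m = 4 ^ j * q)

theorem exists_reply {q : ℕ} (hq : q % 2 = 1) (h1 : 1 < q) :
    ∃ r, Move q (2 * r) ∧ r % 2 = 1 ∧ 1 < r := by
  rcases (show q % 4 = 1 ∨ q % 4 = 3 by omega) with h | h
  · refine ⟨(3 * q - 1) / 2, Or.inr ⟨Nat.odd_iff.2 hq, Or.inr (by omega)⟩, by omega, by omega⟩
  · refine ⟨(3 * q + 1) / 2, Or.inr ⟨Nat.odd_iff.2 hq, Or.inl (by omega)⟩, by omega, by omega⟩

theorem not_SR_two_mul {r : ℕ} (hr : r % 2 = 1) (h1 : 1 < r) : ¬ SR (2 * r) := by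
  rintro (h | ⟨j, h⟩ | ⟨j, q, hq, h⟩)
  · omega
  · rcases Nat.eq_zero_or_pos j with h0 | h0
    · subst h0; simp at h; omega
    · have := four_pow_odd h0; omega
  · rcases Nat.eq_zero_or_pos j with h0 | h0
    · subst h0; have := hq.odd_gt; simp at h; omega
    · obtain ⟨t, ht⟩ := four_pow_odd h0
      rw [ht, mul_assoc] at h; omega

theorem SR_closed : ∀ m : ℕ, (∃ m' : ℕ, Move m m' ∧
    (m' = 1 ∨ ∀ m'' : ℕ, Move m' m'' → m'' ≠ 1 ∧ m'' ∈ {x | SR x})) → m ∈ {x | SR x} := by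
  rintro m ⟨m', hm, h⟩
  show SR m
  rcases hm with ⟨he, hm⟩ | ⟨ho, hm⟩
  · have he' := Nat.even_iff.1 he
    rcases h with h | h
    · exact Or.inr (Or.inl ⟨0, by omega⟩)
    · rcases Nat.even_or_odd m' with h2 | h2
      · have h2' := Nat.even_iff.1 h2
        obtain ⟨h3, h4⟩ := h (m' / 2) (Or.inl ⟨h2, rfl⟩)
        rcases h4 with h4 | ⟨j, h4⟩ | ⟨j, q, hq, h4⟩
        · exact absurd h4 h3
        · exact Or.inr (Or.inl ⟨j + 1, by rw [pow_succ]; omega⟩)
        · refine Or.inr (Or.inr ⟨j + 1, q, hq, ?_⟩)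
          have : 4 ^ (j + 1) * q = 4 * (4 ^ j * q) := by ring
          rw [this]; omega
      · have h2' := Nat.odd_iff.1 h2
        rcases Nat.lt_or_ge 1 m' with h5 | h5
        · obtain ⟨r, h6, h7, h8⟩ := exists_reply h2' h5
          exact absurd (h _ h6).2 (not_SR_two_mul h7 h8)
        · exact Or.inr (Or.inl ⟨0, by omega⟩)
  · have ho' := Nat.odd_iff.1 ho
    rcases Nat.lt_or_ge 1 m with h1 | h1
    swap
    · exact Or.inl (by omega)
    have hev : Even m' := by rw [Nat.even_iff]; omega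
    rcases h with h | h
    · omega
    · obtain ⟨h3, h4⟩ := h (m' / 2) (Or.inl ⟨hev, rfl⟩)
      have hev' := Nat.even_iff.1 hev
      refine Or.inr (Or.inr ⟨0, m, ?_, by simp⟩)
      rcases h4 with h4 | ⟨j, h4⟩ | ⟨j, q, hq, h4⟩
      · exact absurd h4 h3
      · have h5 : m' = 4 ^ (j + 1) := by rw [pow_succ]; omega
        have h6 := four_pow_mod3 (j + 1)
        exact Reach.base m (j + 1) h1 (by omega)
      · refine Reach.step m q j ?_ hq
        rw [two_pow_odd, mul_assoc]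
        rcases hm with hm | hm
        · left; omega
        · right; omega

theorem wins_of_reach {n : ℕ} (h : Reach n) : Wins n := by
  intro S hS
  have h2 : ∀ j : ℕ, 2 * 4 ^ j ∈ S := by
    intro j
    induction j with
    | zero => exact hS _ ⟨1, Or.inl ⟨by decide, by norm_num⟩, Or.inl rfl⟩
    | succ j ih =>
      refine hS _ ⟨4 ^ (j + 1), Or.inl ⟨even_two_mul _, by omega⟩, Or.inr ?_⟩
      intro m'' hm''
      have hE : Even (4 ^ (j + 1)) := by
        rw [Nat.even_iff]; have := four_pow_odd (b := j + 1) (by omega); omega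
      rcases hm'' with ⟨_, hm⟩ | ⟨ho, _⟩
      · have h3 : m'' = 2 * 4 ^ j := by rw [hm, pow_succ]; omega
        have h4 : 1 ≤ 4 ^ j := Nat.one_le_pow _ _ (by norm_num)
        exact ⟨by omega, by rw [h3]; exact ih⟩
      · exact absurd hE (Nat.not_even_iff_odd.2 ho)
  induction h with
  | base m b h1 h3 =>
    have hm := (Reach.base m b h1 h3).odd_gt
    have hb : 1 < b := by
      rcases (show b = 0 ∨ b = 1 ∨ 1 < b by omega) with h | h | h
      · subst h; simp at h3; omega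
      · subst h; simp at h3; omega
      · exact h
    obtain ⟨c, rfl⟩ : ∃ c, b = c + 1 := ⟨b - 1, by omega⟩
    refine hS _ ⟨3 * m + 1, Or.inr ⟨Nat.odd_iff.2 hm.1, Or.inl rfl⟩, Or.inr ?_⟩
    intro m'' hm''
    rcases hm'' with ⟨_, hm''⟩ | ⟨ho, _⟩
    · rw [h3] at hm''
      have h4 : m'' = 2 * 4 ^ c := by rw [hm'', pow_succ]; omega
      have h5 : 1 ≤ 4 ^ c := Nat.one_le_pow _ _ (by norm_num)
      exact ⟨by omega, by rw [h4]; exact h2 c⟩
    · rw [Nat.odd_iff] at ho; omega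
  | step m q j h1 hq ih =>
    have hm := (Reach.step m q j h1 hq).odd_gt
    have hq' := hq.odd_gt
    have h4 : ∀ i : ℕ, 4 ^ i * q ∈ S := by
      intro i
      induction i with
      | zero => simpa using ih
      | succ i ihi =>
        have h5 : 4 ^ (i + 1) * q = 4 * (4 ^ i * q) := by ring
        have h6 : 1 ≤ 4 ^ i := Nat.one_le_pow _ _ (by norm_num)
        have h7 : q ≤ 4 ^ i * q := Nat.le_mul_of_pos_left q h6
        refine hS _ ⟨2 * (4 ^ i * q), Or.inl ⟨by rw [h5, Nat.even_iff]; omega, by omega⟩,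
          Or.inr ?_⟩
        intro m'' hm''
        rcases hm'' with ⟨_, hm''⟩ | ⟨ho, _⟩
        · have h8 : m'' = 4 ^ i * q := by omega
          exact ⟨by omega, by rw [h8]; exact ihi⟩
        · rw [Nat.odd_iff] at ho; omega
    have h6 : 1 ≤ 4 ^ j := Nat.one_le_pow _ _ (by norm_num)
    have h7 : q ≤ 4 ^ j * q := Nat.le_mul_of_pos_left q h6
    rw [two_pow_odd, mul_assoc] at h1
    have key : ∃ m', Move m m' ∧ m' = 2 * (4 ^ j * q) := by
      rcases h1 with h1 | h1
      · exact ⟨3 * m + 1, Or.inr ⟨Nat.odd_iff.2 hm.1, Or.inl rfl⟩, h1⟩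
      · exact ⟨3 * m - 1, Or.inr ⟨Nat.odd_iff.2 hm.1, Or.inr rfl⟩, h1⟩
    obtain ⟨m', hm1, hm2⟩ := key
    refine hS _ ⟨m', hm1, Or.inr ?_⟩
    intro m'' hm''
    rcases hm'' with ⟨_, hm''⟩ | ⟨ho, _⟩
    · have h8 : m'' = 4 ^ j * q := by omega
      exact ⟨by omega, by rw [h8]; exact h4 j⟩
    · rw [Nat.odd_iff] at ho; omega

theorem wins_iff {n : ℕ} (hn : n % 2 = 1) (h1 : 1 < n) : Wins n ↔ Reach n := by
  refine ⟨fun h => ?_, wins_of_reach⟩
  rcases h {x | SR x} SR_closed with h | ⟨j, h⟩ | ⟨j, q, hq, h⟩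
  · omega
  · omega
  · rcases Nat.eq_zero_or_pos j with h0 | h0
    · subst h0; simp at h; rw [h]; exact hq
    · obtain ⟨t, ht⟩ := four_pow_odd h0
      rw [ht, mul_assoc] at h; omega

theorem not_wins_two_mul {r : ℕ} (hr : r % 2 = 1) (h1 : 1 < r) : ¬ Wins (2 * r) :=
  fun h => not_SR_two_mul hr h1 (h {x | SR x} SR_closed)

/-! ### Counting -/

/-- The reverse move `w ↦ (2^(2j+1) w ± 1)/3`. -/
def child (w j : ℕ) : ℕ := (2 * 4 ^ j * w + 1) / 3

theorem child_spec {w : ℕ} (h3 : w % 3 ≠ 0) (j : ℕ) :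
    (w % 3 = 1 ∧ 3 * child w j - 1 = 2 * 4 ^ j * w ∧ 1 ≤ 3 * child w j) ∨
    (w % 3 = 2 ∧ 3 * child w j + 1 = 2 * 4 ^ j * w) := by
  have h4 := four_pow_mod3 j
  have h5 : (2 * 4 ^ j * w) % 3 = (2 * w) % 3 := by
    have h6 : 4 ^ j = 3 * (4 ^ j / 3) + 1 := by omega
    generalize 4 ^ j / 3 = u at h6
    rw [h6]
    have h7 : 2 * (3 * u + 1) * w = 3 * (2 * u * w) + 2 * w := by ring
    rw [h7]
    omega
  unfold child
  generalize 2 * 4 ^ j * w = t at *
  rcases (show w % 3 = 1 ∨ w % 3 = 2 by omega) with h | h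
  · left
    have h8 : t % 3 = 2 := by omega
    refine ⟨h, ?_, ?_⟩ <;> omega
  · right
    have h8 : t % 3 = 1 := by omega
    refine ⟨h, ?_⟩
    omega

theorem child_reach {w : ℕ} (hw : Reach w) (h3 : w % 3 ≠ 0) (j : ℕ) : Reach (child w j) := by
  refine Reach.step _ w j ?_ hw
  rw [two_pow_odd]
  rcases child_spec h3 j with ⟨_, h, _⟩ | ⟨_, h⟩
  · exact Or.inr h
  · exact Or.inl h

theorem child_inj {w w' j j' : ℕ} (hw : w % 2 = 1) (hw' : w' % 2 = 1) (h3 : w % 3 ≠ 0)
    (h3' : w' % 3 ≠ 0) (hj : 1 ≤ j) (hj' : 1 ≤ j') (h : child w j = child w' j') :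
    w = w' ∧ j = j' := by
  have key : 4 ^ j * w = 4 ^ j' * w' := by
    obtain ⟨t, ht⟩ := four_pow_odd hj
    obtain ⟨t', ht'⟩ := four_pow_odd hj'
    have e1 := child_spec h3 j
    have e2 := child_spec h3' j'
    rw [h] at e1
    have a1 : 2 * 4 ^ j * w = 8 * (t * w) := by rw [ht]; ring
    have a2 : 2 * 4 ^ j' * w' = 8 * (t' * w') := by rw [ht']; ring
    have a3 : 4 ^ j * w = 4 * (t * w) := by rw [ht]; ring
    have a4 : 4 ^ j' * w' = 4 * (t' * w') := by rw [ht']; ring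
    rw [a1] at e1
    rw [a2] at e2
    rw [a3, a4]
    omega
  have h1 : ∀ {x y : ℕ} {u v : ℕ}, x % 2 = 1 → y % 2 = 1 → 4 ^ u * x = 4 ^ v * y → u ≤ v := by
    intro x y u v hx hy he
    by_contra hlt
    obtain ⟨d, rfl⟩ : ∃ d, u = v + (d + 1) := ⟨u - v - 1, by omega⟩
    rw [pow_add, mul_assoc] at he
    have h2 := Nat.eq_of_mul_eq_mul_left (Nat.pos_of_ne_zero (by positivity)) he
    rw [pow_succ] at h2
    have : y = 4 * (4 ^ d * x) := by rw [← h2]; ring
    omega
  have hjj : j = j' := le_antisymm (h1 hw hw' key) (h1 hw' hw key.symm)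
  subst hjj
  exact ⟨Nat.eq_of_mul_eq_mul_left (by positivity) key, rfl⟩

def J1 (w : ℕ) : ℕ := if w % 9 = 1 ∨ w % 9 = 8 then 2 else 1
def J2 (w : ℕ) : ℕ := if w % 9 = 4 ∨ w % 9 = 5 then 2 else 3
def J3 (w : ℕ) : ℕ := if w % 9 = 1 ∨ w % 9 = 8 then 5 else 4

theorem J_lt (w : ℕ) : 1 ≤ J1 w ∧ J1 w < J2 w ∧ J2 w < J3 w := by
  unfold J1 J2 J3
  split_ifs <;> omega

theorem child_J {w : ℕ} (h3 : w % 3 ≠ 0) (h1 : 1 ≤ w) :
    (child w (J1 w) % 3 ≠ 0 ∧ child w (J1 w) ≤ 16 * w) ∧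
    (child w (J2 w) % 3 ≠ 0 ∧ child w (J2 w) ≤ 64 * w) ∧
    (child w (J3 w) % 3 ≠ 0 ∧ child w (J3 w) ≤ 1024 * w) := by
  obtain ⟨c, hc⟩ : ∃ c, w = 9 * c + w % 9 := ⟨w / 9, by omega⟩
  have hlt : w % 9 < 9 := Nat.mod_lt _ (by norm_num)
  unfold J1 J2 J3 child
  generalize w % 9 = r at *
  interval_cases r <;> subst hc <;> norm_num <;> omega

open Classical in
/-- Winning positions prime to `3` up to `5·4^k`. -/
noncomputable def A (k : ℕ) : Finset ℕ :=
  (Finset.range (5 * 4 ^ k + 1)).filter (fun n => Reach n ∧ n % 3 ≠ 0)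

theorem mem_A {k n : ℕ} : n ∈ A k ↔ n < 5 * 4 ^ k + 1 ∧ Reach n ∧ n % 3 ≠ 0 := by
  classical
  unfold A
  rw [Finset.mem_filter, Finset.mem_range]

theorem card_A_pos (k : ℕ) : 1 ≤ (A k).card := by
  have h : 5 ∈ A k := by
    rw [mem_A]
    refine ⟨?_, Reach.base 5 2 (by norm_num) (by norm_num), by norm_num⟩
    have : 1 ≤ 4 ^ k := Nat.one_le_pow _ _ (by norm_num)
    omega
  exact Finset.card_pos.2 ⟨5, h⟩

theorem card_A_rec (k : ℕ) : (A (k + 3)).card + (A (k + 2)).card + (A k).card ≤ (A (k + 5)).card := by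
  classical
  set f1 : ℕ → ℕ := fun w => child w (J1 w) with hf1
  set f2 : ℕ → ℕ := fun w => child w (J2 w) with hf2
  set f3 : ℕ → ℕ := fun w => child w (J3 w) with hf3
  have inj : ∀ {a b : ℕ} {w w' : ℕ}, w ∈ A a → w' ∈ A b → ∀ {j j' : ℕ}, 1 ≤ j → 1 ≤ j' →
      child w j = child w' j' → w = w' ∧ j = j' := by
    intro a b w w' hw hw' j j' hj hj' h
    rw [mem_A] at hw hw'
    exact child_inj hw.2.1.odd_gt.1 hw'.2.1.odd_gt.1 hw.2.2 hw'.2.2 hj hj' h
  have c1 : ((A (k + 3)).image f1).card = (A (k + 3)).card := by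
    apply Finset.card_image_of_injOn
    intro w hw w' hw' h
    exact (inj hw hw' (J_lt w).1 (J_lt w').1 h).1
  have c2 : ((A (k + 2)).image f2).card = (A (k + 2)).card := by
    apply Finset.card_image_of_injOn
    intro w hw w' hw' h
    have := J_lt w
    have := J_lt w'
    exact (inj hw hw' (by omega) (by omega) h).1
  have c3 : ((A k).image f3).card = (A k).card := by
    apply Finset.card_image_of_injOn
    intro w hw w' hw' h
    have := J_lt w
    have := J_lt w'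
    exact (inj hw hw' (by omega) (by omega) h).1
  have d12 : Disjoint ((A (k + 3)).image f1) ((A (k + 2)).image f2) := by
    rw [Finset.disjoint_left]
    intro x hx hy
    obtain ⟨w, hw, rfl⟩ := Finset.mem_image.1 hx
    obtain ⟨w', hw', h⟩ := Finset.mem_image.1 hy
    have h1 := J_lt w
    have h2 := J_lt w'
    obtain ⟨e1, e2⟩ := inj hw' hw (by omega) (by omega) h
    rw [e1] at e2
    omega
  have d123 : Disjoint ((A (k + 3)).image f1 ∪ (A (k + 2)).image f2) ((A k).image f3) := by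
    rw [Finset.disjoint_left]
    intro x hx hy
    obtain ⟨w', hw', h⟩ := Finset.mem_image.1 hy
    have h2 := J_lt w'
    rcases Finset.mem_union.1 hx with hx | hx
    · obtain ⟨w, hw, rfl⟩ := Finset.mem_image.1 hx
      have h1 := J_lt w
      obtain ⟨e1, e2⟩ := inj hw' hw (by omega) (by omega) h
      rw [e1] at e2
      omega
    · obtain ⟨w, hw, rfl⟩ := Finset.mem_image.1 hx
      have h1 := J_lt w
      obtain ⟨e1, e2⟩ := inj hw' hw (by omega) (by omega) h
      rw [e1] at e2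
      omega
  have hsub : ((A (k + 3)).image f1 ∪ (A (k + 2)).image f2) ∪ (A k).image f3 ⊆ A (k + 5) := by
    intro x hx
    have p5 : 4 ^ (k + 5) = 1024 * 4 ^ k := by ring
    have p3 : 4 ^ (k + 3) = 64 * 4 ^ k := by ring
    have p2 : 4 ^ (k + 2) = 16 * 4 ^ k := by ring
    rcases Finset.mem_union.1 hx with hx | hx
    · rcases Finset.mem_union.1 hx with hx | hx
      · obtain ⟨w, hw, rfl⟩ := Finset.mem_image.1 hx
        rw [mem_A] at hw ⊢
        have hg := hw.2.1.odd_gt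
        have hJ := (child_J hw.2.2 (by omega)).1
        refine ⟨?_, child_reach hw.2.1 hw.2.2 _, hJ.1⟩
        have := hw.1
        simp only [hf1]
        omega
      · obtain ⟨w, hw, rfl⟩ := Finset.mem_image.1 hx
        rw [mem_A] at hw ⊢
        have hg := hw.2.1.odd_gt
        have hJ := (child_J hw.2.2 (by omega)).2.1
        refine ⟨?_, child_reach hw.2.1 hw.2.2 _, hJ.1⟩
        have := hw.1
        simp only [hf2]
        omega
    · obtain ⟨w, hw, rfl⟩ := Finset.mem_image.1 hx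
      rw [mem_A] at hw ⊢
      have hg := hw.2.1.odd_gt
      have hJ := (child_J hw.2.2 (by omega)).2.2
      refine ⟨?_, child_reach hw.2.1 hw.2.2 _, hJ.1⟩
      have := hw.1
      simp only [hf3]
      omega
  have := Finset.card_le_card hsub
  rw [Finset.card_union_of_disjoint d123, Finset.card_union_of_disjoint d12, c1, c2, c3] at this
  exact this

theorem card_A_lower (k : ℕ) :
    (∀ j, k = 2 * j → 5 * 2 ^ j ≤ 20 * (A k).card) ∧
    (∀ j, k = 2 * j + 1 → 7 * 2 ^ j ≤ 20 * (A k).card) := by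
  induction k using Nat.strong_induction_on with
  | _ k ih =>
    rcases Nat.lt_or_ge k 5 with hk | hk
    · have h1 := card_A_pos k
      constructor
      · intro j hj
        have : j ≤ 2 := by omega
        interval_cases j <;> omega
      · intro j hj
        have : j ≤ 1 := by omega
        interval_cases j <;> omega
    · obtain ⟨i, rfl⟩ : ∃ i, k = i + 5 := ⟨k - 5, by omega⟩
      have hrec := card_A_rec i
      have i0 := ih i (by omega)
      have i2 := ih (i + 2) (by omega)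
      have i3 := ih (i + 3) (by omega)
      constructor
      · intro j hj
        obtain ⟨l, rfl⟩ : ∃ l, j = l + 3 := ⟨j - 3, by omega⟩
        have a0 := i0.2 l (by omega)
        have a2 := i2.2 (l + 1) (by omega)
        have a3 := i3.1 (l + 2) (by omega)
        rw [pow_succ] at a2
        rw [pow_succ, pow_succ] at a3
        rw [pow_succ, pow_succ, pow_succ]
        omega
      · intro j hj
        obtain ⟨l, rfl⟩ : ∃ l, j = l + 2 := ⟨j - 2, by omega⟩
        have a0 := i0.1 l (by omega)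
        have a2 := i2.1 (l + 1) (by omega)
        have a3 := i3.2 (l + 1) (by omega)
        rw [pow_succ] at a2 a3
        rw [pow_succ, pow_succ]
        omega

theorem card_A_four (k : ℕ) : 20 * 4 ^ k ≤ 10 ^ 4 * (A k).card ^ 4 := by
  have h := card_A_lower k
  set c := (A k).card
  rcases Nat.even_or_odd' k with ⟨j, hj | hj⟩
  · have h1 := h.1 j hj
    have h2 : (5 * 2 ^ j) ^ 4 ≤ (20 * c) ^ 4 := Nat.pow_le_pow_left h1 4
    have h3 : (4 : ℕ) ^ k = (2 ^ j) ^ 4 := by
      rw [hj, ← pow_mul, pow_mul]; norm_num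
      rw [show (2 : ℕ) ^ (j * 4) = (2 ^ 4) ^ j by rw [← pow_mul, mul_comm]]
      norm_num
    rw [mul_pow, mul_pow] at h2
    rw [h3]
    norm_num at h2 ⊢
    omega
  · have h1 := h.2 j hj
    have h2 : (7 * 2 ^ j) ^ 4 ≤ (20 * c) ^ 4 := Nat.pow_le_pow_left h1 4
    have h3 : (4 : ℕ) ^ k = 4 * (2 ^ j) ^ 4 := by
      rw [hj, pow_succ, pow_mul]; norm_num
      rw [show ((2 : ℕ) ^ j) ^ 4 = (2 ^ 4) ^ j by rw [← pow_mul, mul_comm, pow_mul]]
      norm_num
      ring
    rw [mul_pow, mul_pow] at h2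
    rw [h3]
    norm_num at h2 ⊢
    omega

end Pool.Agent.H297.Beanstalk
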