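import Mathlib

set_option autoImplicit false

namespace Pool.Agent.H297.Darcais

open Finset

/-- normalised D'Arcais numbers `n! P_n(x)` in a commutative ring. -/
def A {R : Type*} [CommRing R] (x : R) : ℕ → R
  | 0 => 1
  | n+1 => x * ∑ k : Fin (n+1),
      ((ArithmeticFunction.sigma 1 (k.1+1) * n.descFactorial k.1 : ℕ) : R) * A x (n - k.1)
  termination_by n => n
  decreasing_by omega

lemma A_succ {R : Type*} [CommRing R] (x : R) (n : ℕ) :
    A x (n+1) = x * ∑ k ∈ range (n+1),
      ((ArithmeticFunction.sigma 1 (k+1) * n.descFactorial k : ℕ) : R) * A x (n - k) := by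
  rw [A, Finset.sum_range]

lemma A_zero {R : Type*} [CommRing R] (x : R) : A x 0 = 1 := by rw [A]

lemma map_A {R S : Type*} [CommRing R] [CommRing S] (φ : R →+* S) (x : R) (n : ℕ) :
    φ (A x n) = A (φ x) n := by
  induction n using Nat.strong_induction_on with
  | _ n ih =>
    cases n with
    | zero => rw [A_zero, A_zero, map_one]
    | succ n =>
      rw [A_succ, A_succ, map_mul, map_sum]
      congr 1
      apply Finset.sum_congr rfl
      intro k hk
      rw [map_mul, map_natCast, ih (n-k) (by have := Finset.mem_range.1 hk; omega)]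

lemma descFactorial_cast_add {R : Type*} [CommRing R] (p : ℕ) (hp : (p : R) = 0) (n k : ℕ)
    (hk : k ≤ n) : (((n + p).descFactorial k : ℕ) : R) = ((n.descFactorial k : ℕ) : R) := by
  induction k with
  | zero => simp
  | succ k ih =>
    rw [Nat.descFactorial_succ, Nat.descFactorial_succ]
    push_cast
    rw [ih (by omega)]
    have : (((n + p - k : ℕ)) : R) = ((n - k : ℕ) : R) := by
      rw [show n + p - k = (n - k) + p by omega]
      push_cast
      rw [hp, add_zero]
    rw [this]

lemma descFactorial_cast_zero {R : Type*} [CommRing R] (p : ℕ) (hp : (p : R) = 0) (n k : ℕ)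
    (hk : n < k) : (((n + p).descFactorial k : ℕ) : R) = 0 := by
  induction k with
  | zero => omega
  | succ k ih =>
    rw [Nat.descFactorial_succ]
    push_cast
    rcases Nat.lt_or_ge n k with h | h
    · rw [ih h, mul_zero]
    · have : k = n := by omega
      subst this
      rw [show k + p - k = p by omega, hp, zero_mul]

lemma A_add {R : Type*} [CommRing R] (x : R) (p : ℕ) (hp : (p : R) = 0) (n : ℕ) :
    A x (n + p) = A x p * A x n := by
  induction n using Nat.strong_induction_on with
  | _ n ih =>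
    cases n with
    | zero => rw [A_zero, zero_add, mul_one]
    | succ n =>
      rw [show n + 1 + p = (n + p) + 1 by ring, A_succ, A_succ x n]
      have hsub : range (n+1) ⊆ range (n+p+1) := Finset.range_mono (by omega)
      rw [← Finset.sum_subset hsub]
      · have hh : ∑ k ∈ range (n+1), ((ArithmeticFunction.sigma 1 (k+1) *
            (n+p).descFactorial k : ℕ) : R) * A x (n + p - k) = A x p * ∑ k ∈ range (n+1),
            ((ArithmeticFunction.sigma 1 (k+1) * n.descFactorial k : ℕ) : R) * A x (n - k) := by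
          rw [Finset.mul_sum]
          apply Finset.sum_congr rfl
          intro k hk
          have hk' : k ≤ n := by have := Finset.mem_range.1 hk; omega
          rw [show n + p - k = (n - k) + p by omega, ih (n-k) (by omega)]
          push_cast
          rw [descFactorial_cast_add p hp n k hk']
          ring
        rw [hh]
        ring
      · intro k _ hk
        have hk' : n < k := by
          by_contra hcon
          exact hk (Finset.mem_range.2 (by omega))
        push_cast
        rw [descFactorial_cast_zero p hp n k hk']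
        ring

lemma A_mul_add {R : Type*} [CommRing R] (x : R) (p : ℕ) (hp : (p : R) = 0) (m r : ℕ) :
    A x (m * p + r) = A x p ^ m * A x r := by
  induction m with
  | zero => simp
  | succ m ih =>
    rw [show (m+1)*p + r = (m*p + r) + p by ring, A_add x p hp, ih]
    ring

lemma A_unit {R : Type*} [CommRing R] (x : R) (p : ℕ) (hp : (p : R) = 0) (hp0 : 0 < p)
    (h : ∀ r ≤ p, IsUnit (A x r)) (n : ℕ) : IsUnit (A x n) := by
  have e : n = (n / p) * p + n % p := by rw [mul_comm]; exact (Nat.div_add_mod n p).symm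
  rw [e, A_mul_add x p hp]
  exact ((h p le_rfl).pow _).mul (h _ (Nat.mod_lt _ hp0).le)

/-! computation modulo `p` with pairs -/

noncomputable def hor (f : ℕ × ℕ → ℕ) (L : List (ℕ × ℕ)) : List ℕ → ℕ → ℕ :=
  List.rec (motive := fun _ => List ℕ → ℕ → ℕ) (fun _ _ => 0)
    (fun z _ ih S m => S.headD 0 * f z + m * ih S.tail (m-1)) L

lemma hor_nil (f : ℕ × ℕ → ℕ) (S : List ℕ) (m : ℕ) : hor f [] S m = 0 := rfl

lemma hor_cons (f : ℕ × ℕ → ℕ) (z : ℕ × ℕ) (L : List (ℕ × ℕ)) (S : List ℕ) (m : ℕ) :
    hor f (z :: L) S m = S.headD 0 * f z + m * hor f L S.tail (m-1) := rfl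

noncomputable def lst (p t : ℕ) (S : List ℕ) (m : ℕ) : List (ℕ × ℕ) :=
  Nat.rec (motive := fun _ => List (ℕ × ℕ)) [(1, 0)]
    (fun m ih => (((p - t) * hor Prod.snd ih S m) % p, (t * hor Prod.fst ih S m) % p) :: ih) m

lemma lst_succ (p t : ℕ) (S : List ℕ) (m : ℕ) : lst p t S (m+1) =
    (((p - t) * hor Prod.snd (lst p t S m) S m) % p,
      (t * hor Prod.fst (lst p t S m) S m) % p) :: lst p t S m := rfl

noncomputable def okl (p : ℕ) (L : List (ℕ × ℕ)) : Bool :=
  List.rec (motive := fun _ => Bool) true (fun z _ ih =>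
    and (Nat.blt 0 ((z.1 * z.1 + z.2 * z.2) % p)) ih) L

noncomputable def okt (p : ℕ) (S : List ℕ) (t : ℕ) : Bool :=
  Nat.rec (motive := fun _ => Bool) true (fun t ih => and (okl p (lst p (t+1) S p)) ih) t

def sigL : List ℕ := [1, 3, 4, 7, 6, 12, 8, 15, 13, 18, 12, 28, 14, 24, 24, 31, 18, 39, 20, 42, 32, 36, 24, 60, 31, 42, 40, 56, 30, 72, 32, 63, 48, 54, 48, 91, 38, 60, 56, 90, 42, 96, 44, 84, 78, 72, 48, 124, 57, 93, 72, 98, 54, 120, 72, 120, 80, 90, 60, 168, 62, 96, 104, 127, 84, 144, 68, 126, 96, 144, 72, 195]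

lemma sigL_spec : ∀ k < 72, (sigL.drop k).headD 0 = ArithmeticFunction.sigma 1 (k+1) := by
  decide +kernel

/-- ring version of the Horner sum -/
def horR {R : Type*} [CommRing R] : List R → List ℕ → ℕ → R
  | [], _, _ => 0
  | a :: L, S, m => (S.headD 0 : ℕ) * a + (m : R) * horR L S.tail (m-1)

def rep {R : Type*} [CommRing R] (j : R) (z : ℕ × ℕ) : R := (z.1 : R) + (z.2 : R) * j

lemma hor_rep {R : Type*} [CommRing R] (j : R) (L : List (ℕ × ℕ)) (S : List ℕ) (m : ℕ) :
    ((hor Prod.fst L S m : ℕ) : R) + ((hor Prod.snd L S m : ℕ) : R) * j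
      = horR (L.map (rep j)) S m := by
  induction L generalizing S m with
  | nil => simp [hor_nil, horR]
  | cons z L ih =>
    rw [hor_cons, hor_cons, List.map_cons, horR, ← ih]
    unfold rep
    push_cast
    ring

def AL {R : Type*} [CommRing R] (x : R) : ℕ → List R
  | 0 => [A x 0]
  | m+1 => A x (m+1) :: AL x m

lemma horR_AL {R : Type*} [CommRing R] (x : R) (n : ℕ) : ∀ k : ℕ, n + k < 72 →
    horR (AL x n) (sigL.drop k) n = ∑ i ∈ range (n+1),
      ((ArithmeticFunction.sigma 1 (k+i+1) * n.descFactorial i : ℕ) : R) * A x (n - i) := by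
  induction n with
  | zero =>
    intro k hk
    rw [AL, horR, sigL_spec k (by omega)]
    simp
  | succ n ih =>
    intro k hk
    rw [AL, horR, sigL_spec k (by omega), List.tail_drop, show n + 1 - 1 = n by omega,
      ih (k+1) (by omega), Finset.sum_range_succ' _ (n+1), Finset.mul_sum]
    rw [add_comm]
    congr 1
    · apply Finset.sum_congr rfl
      intro i _
      rw [Nat.succ_descFactorial_succ, show n + 1 - (i+1) = n - i by omega,
        show k + 1 + i + 1 = k + (i+1) + 1 by ring]
      push_cast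
      ring
    · simp

lemma lst_rep {R : Type*} [CommRing R] (j : R) (hj : j * j = -1) (p t : ℕ) (hp : (p : R) = 0)
    (htp : t ≤ p) (m : ℕ) (hm : m < 72) :
    (lst p t sigL m).map (rep j) = AL ((t : R) * j) m := by
  induction m with
  | zero =>
    simp [lst, AL, rep, A_zero]
  | succ m ih =>
    rw [lst_succ, List.map_cons, AL, ih (by omega)]
    congr 1
    have hmod : ∀ a : ℕ, ((a % p : ℕ) : R) = (a : R) := by
      intro a
      conv_rhs => rw [← Nat.div_add_mod a p]
      push_cast
      rw [hp]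
      ring
    unfold rep
    rw [hmod, hmod]
    push_cast
    rw [Nat.cast_sub htp, hp]
    have h1 := hor_rep j (lst p t sigL m) sigL m
    rw [ih (by omega)] at h1
    have h2 := horR_AL ((t : R) * j) m 0 (by omega)
    rw [List.drop_zero] at h2
    have h3 : A ((t : R) * j) (m+1) = (t : R) * j * horR (AL ((t : R) * j) m) sigL m := by
      rw [A_succ, h2]
      congr 1
      apply Finset.sum_congr rfl
      intro i _
      rw [Nat.zero_add]
    rw [h3, ← h1]
    linear_combination (-(t : R) * ((hor Prod.snd (lst p t sigL m) sigL m : ℕ) : R)) * hj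

lemma okl_spec (p : ℕ) (L : List (ℕ × ℕ)) (h : okl p L = true) :
    ∀ z ∈ L, 0 < (z.1 * z.1 + z.2 * z.2) % p := by
  induction L with
  | nil => simp
  | cons z L ih =>
    have h' : (Nat.blt 0 ((z.1 * z.1 + z.2 * z.2) % p) && okl p L) = true := h
    rw [Bool.and_eq_true] at h'
    intro w hw
    rcases List.mem_cons.1 hw with h1 | h1
    · rw [h1]
      have := h'.1
      simpa [Nat.blt_eq] using this
    · exact ih h'.2 w h1

lemma okt_spec (p : ℕ) (S : List ℕ) (T : ℕ) (h : okt p S T = true) :
    ∀ t, 1 ≤ t → t ≤ T → okl p (lst p t S p) = true := by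
  induction T with
  | zero => intro t h1 h2; omega
  | succ T ih =>
    have h' : (okl p (lst p (T+1) S p) && okt p S T) = true := h
    rw [Bool.and_eq_true] at h'
    intro t h1 h2
    rcases Nat.lt_or_ge T t with h3 | h3
    · rw [show t = T + 1 by omega]; exact h'.1
    · exact ih h'.2 t h1 h3

lemma rep_unit {R : Type*} [CommRing R] (j : R) (hj : j * j = -1) (p : ℕ) (hpp : p.Prime)
    (hp : (p : R) = 0) (z : ℕ × ℕ) (hz : 0 < (z.1 * z.1 + z.2 * z.2) % p) :
    IsUnit (rep j z) := by
  set c : ℕ := z.1 * z.1 + z.2 * z.2 with hc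
  have hcop : Nat.Coprime c p := by
    rw [Nat.coprime_comm, hpp.coprime_iff_not_dvd]
    intro hd
    rw [Nat.mod_eq_zero_of_dvd hd] at hz
    omega
  have hb := Nat.gcd_eq_gcd_ab c p
  rw [hcop.gcd_eq_one] at hb
  have hb' : (1 : R) = (c : R) * ((Nat.gcdA c p : ℤ) : R) := by
    have := congrArg (fun q : ℤ => (q : R)) hb
    push_cast at this
    rw [hp] at this
    rw [this]
    ring
  apply IsUnit.of_mul_eq_one (((z.1 : R) - (z.2 : R) * j) * ((Nat.gcdA c p : ℤ) : R))
  rw [hb', hc]
  unfold rep
  push_cast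
  linear_combination (-(z.2 : R) * (z.2 : R) * ((Nat.gcdA (z.1 * z.1 + z.2 * z.2) p : ℤ) : R)) * hj

lemma mem_AL {R : Type*} [CommRing R] (x : R) (m r : ℕ) (h : r ≤ m) : A x r ∈ AL x m := by
  induction m with
  | zero => rw [show r = 0 by omega, AL]; simp
  | succ m ih =>
    rw [AL]
    rcases Nat.lt_or_ge m r with h1 | h1
    · rw [show r = m + 1 by omega]; simp
    · exact List.mem_cons_of_mem _ (ih h1)

lemma unit_of_ok {R : Type*} [CommRing R] (j : R) (hj : j * j = -1) (p : ℕ) (hpp : p.Prime)
    (hp72 : p < 72) (hp : (p : R) = 0) (T : ℕ) (hok : okt p sigL T = true) (t : ℕ) (h1 : 1 ≤ t)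
    (h2 : t ≤ T) (hT : T ≤ p) (n : ℕ) : IsUnit (A ((t : R) * j) n) := by
  apply A_unit _ p hp hpp.pos
  intro r hr
  have hmem : A ((t : R) * j) r ∈ (lst p t sigL p).map (rep j) := by
    rw [lst_rep j hj p t hp (by omega) p hp72]
    exact mem_AL _ _ _ hr
  obtain ⟨z, hz, he⟩ := List.mem_map.1 hmem
  rw [← he]
  exact rep_unit j hj p hpp hp z (okl_spec p _ (okt_spec p sigL T hok t h1 h2) z hz)

end Pool.Agent.H297.Darcais
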