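import Pool.Agent.H297.Darcais

set_option autoImplicit false

namespace Pool.Agent.H297.Darcais

lemma ok3 : okt 3 sigL 1 = true := by decide +kernel
lemma ok11 : okt 11 sigL 5 = true := by decide +kernel
lemma ok19 : okt 19 sigL 9 = true := by decide +kernel
lemma ok43 : okt 43 sigL 21 = true := by decide +kernel
lemma ok47 : okt 47 sigL 23 = true := by decide +kernel
lemma ok59 : okt 59 sigL 29 = true := by decide +kernel
lemma ok67 : okt 67 sigL 33 = true := by decide +kernel
lemma ok71 : okt 71 sigL 35 = true := by decide +kernel

end Pool.Agent.H297.Darcais
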