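import Mathlib

set_option autoImplicit false

namespace Pool.Agent.H297.ErdosPow

open Finset

/-- cubic lower bound for `exp (-u)` -/
lemma exp_neg_ge (u : ℝ) (hu : 0 ≤ u) : 1 - u + u^2/2 - u^3/6 ≤ Real.exp (-u) := by
  set f : ℝ → ℝ := fun u => Real.exp u * (1 - u + u^2/2 - u^3/6) with hf
  have hd : ∀ y : ℝ, HasDerivAt f (-(Real.exp y * y^3/6)) y := by
    intro y
    have h1 : HasDerivAt (fun u : ℝ => 1 - u + u^2/2 - u^3/6)
        (-1 + y - y^2/2) y := by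
      have a1 := (hasDerivAt_id y)
      have a2 := (hasDerivAt_pow 2 y).div_const 2
      have a3 := (hasDerivAt_pow 3 y).div_const 6
      have := ((a1.const_sub 1).add a2).sub a3
      refine this.congr_deriv ?_
      norm_num
      ring
    have h2 := (Real.hasDerivAt_exp y).mul h1
    refine h2.congr_deriv ?_
    ring
  have hanti : AntitoneOn f (Set.Ici 0) := by
    apply antitoneOn_of_deriv_nonpos (convex_Ici 0)
    · exact fun y _ => (hd y).continuousAt.continuousWithinAt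
    · exact fun y _ => (hd y).differentiableAt.differentiableWithinAt
    · intro y hy
      rw [interior_Ici] at hy
      have hy0 : 0 < y := hy
      rw [(hd y).deriv]
      have := Real.exp_pos y
      have : 0 ≤ Real.exp y * y^3/6 := by positivity
      linarith
  have h := hanti (Set.mem_Ici.2 le_rfl) (Set.mem_Ici.2 hu) hu
  simp only [hf] at h
  norm_num at h
  have hp := Real.exp_pos u
  rw [Real.exp_neg, inv_eq_one_div, le_div_iff₀ hp]
  linarith

lemma exp_neg_le (z : ℝ) (hz : 0 ≤ z) : Real.exp (-z) ≤ 1 - z + z^2/2 := by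
  set f : ℝ → ℝ := fun u => Real.exp u * (1 - u + u^2/2) with hf
  have hd : ∀ y : ℝ, HasDerivAt f (Real.exp y * y^2/2) y := by
    intro y
    have h1 : HasDerivAt (fun u : ℝ => 1 - u + u^2/2)
        (-1 + y) y := by
      have a1 := (hasDerivAt_id y)
      have a2 := (hasDerivAt_pow 2 y).div_const 2
      have := ((a1.const_sub 1).add a2)
      refine this.congr_deriv ?_
      norm_num
    have h2 := (Real.hasDerivAt_exp y).mul h1
    refine h2.congr_deriv ?_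
    ring
  have hmono : MonotoneOn f (Set.Ici 0) := by
    apply monotoneOn_of_deriv_nonneg (convex_Ici 0)
    · exact fun y _ => (hd y).continuousAt.continuousWithinAt
    · exact fun y _ => (hd y).differentiableAt.differentiableWithinAt
    · intro y hy
      rw [interior_Ici] at hy
      have hy0 : 0 < y := hy
      rw [(hd y).deriv]
      have := Real.exp_pos y
      positivity
  have h := hmono (Set.mem_Ici.2 le_rfl) (Set.mem_Ici.2 hz) hz
  simp only [hf] at h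
  norm_num at h
  have hp := Real.exp_pos z
  rw [Real.exp_neg, inv_le_iff_one_le_mul₀ hp]
  linarith

lemma log_lower (x : ℝ) (h0 : 0 ≤ x) (h1 : x < 1) : x + x^2/2 + x^3/3 ≤ -Real.log (1 - x) := by
  have hs := Real.hasSum_pow_div_log_of_abs_lt_one (x := x) (by rw [abs_of_nonneg h0]; exact h1)
  have := sum_le_hasSum (Finset.range 3) (fun i _ => by positivity) hs
  simp [Finset.sum_range_succ] at this
  norm_num at this
  linarith

lemma log_upper (x : ℝ) (h0 : 0 ≤ x) (h1 : x ≤ 1/4) :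
    -Real.log (1 - x) ≤ x + x^2/2 + x^3/3 + 4/3 * x^4 := by
  have hx : |x| < 1 := by rw [abs_of_nonneg h0]; linarith
  have h := Real.abs_log_sub_add_sum_range_le hx 3
  rw [abs_of_nonneg h0] at h
  have h2 : x^(3+1)/(1-x) ≤ 4/3 * x^4 := by
    rw [div_le_iff₀ (by linarith)]
    have : 0 ≤ x^4 := by positivity
    nlinarith
  have h3 := (abs_le.1 (h.trans h2)).1
  simp [Finset.sum_range_succ] at h3
  norm_num at h3
  linarith

/-- the comparison polynomial -/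
noncomputable def Wf (L x j : ℝ) : ℝ :=
  1 - L*((j^2-j)/2)*x - L*((j^3-j)/3-(j^2-j)/4)*x^2 - L*(4/3*j^4)*x^3
    + L^2*((j^2-j)/2)^2*x^2/2 - 4/81*L^3*j^6*x^3

noncomputable def Vf (L x j : ℝ) : ℝ :=
  1 - L*(((j^2+2*j+3) - (j+1))/2)*x
    - L*(((j^3+3*j^2+9*j+13) - (j+1))/3 - ((j^2+2*j+3)-(j+1))/4)*x^2
    - L*(4/3*(j^4+4*j^3+18*j^2+52*j+75))*x^3
    + L^2*(((j^4+4*j^3+18*j^2+52*j+75) - 2*(j^3+3*j^2+9*j+13) + (j^2+2*j+3))/8)*x^2
    - 4/81*L^3*(j^6+6*j^5+45*j^4+260*j^3+1125*j^2+3246*j+4683)*x^3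

lemma V_rec (L x j : ℝ) : 2 * Vf L x j - Wf L x j = Vf L x (j+1) := by
  unfold Vf Wf
  ring

lemma sum_W (L x : ℝ) (J : ℕ) :
    ∑ j ∈ range J, (1/2 : ℝ)^(j+1) * Wf L x j = Vf L x 0 - (1/2)^J * Vf L x J := by
  induction J with
  | zero => simp
  | succ J ih =>
    rw [Finset.sum_range_succ, ih]
    have h := V_rec L x J
    push_cast
    rw [← h]
    ring


lemma W_nonpos (L w x j : ℝ) (hL1 : 0.6931 < L) (hL2 : L < 0.6932) (hj : 1 ≤ j) (hx : 0 < x)
    (hw : w = j^2 * x) (hw2 : 80 ≤ w) : Wf L x j ≤ 0 := by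
  have hL0 : 0 < L := by linarith
  have hA : 0 ≤ (j^2-j)/2 := by nlinarith
  have hA2 : ((j^2-j)/2)^2 ≤ (j^2/2)^2 := by
    apply pow_le_pow_left₀ hA
    linarith
  have hB : 0 ≤ (j^3-j)/3-(j^2-j)/4 := by
    have : (j^3-j)/3-(j^2-j)/4 = j*(j-1)*((j+1)/3 - 1/4) := by ring
    rw [this]
    have h1 : 0 ≤ j - 1 := by linarith
    have h2 : 0 ≤ (j+1)/3 - 1/4 := by linarith
    positivity
  have h1 : 0 ≤ L*((j^2-j)/2)*x := by positivity
  have h2 : 0 ≤ L*((j^3-j)/3-(j^2-j)/4)*x^2 := by positivity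
  have h3 : 0 ≤ L*(4/3*j^4)*x^3 := by positivity
  have h4 : L^2*((j^2-j)/2)^2*x^2/2 ≤ L^2*(j^2/2)^2*x^2/2 := by
    have : 0 ≤ L^2 := by positivity
    have : 0 ≤ x^2 := by positivity
    gcongr
  have h5 : L^2*(j^2/2)^2*x^2/2 = L^2 * w^2/8 := by rw [hw]; ring
  have h6 : 4/81*L^3*j^6*x^3 = 4/81 * L^3 * w^3 := by rw [hw]; ring
  have hLsq : L^2 ≤ 0.6932^2 := pow_le_pow_left₀ hL0.le hL2.le 2
  have hLcu : 0.6931^3 ≤ L^3 := pow_le_pow_left₀ (by norm_num) hL1.le 3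
  have h7 : L^2 * w^2/8 ≤ 0.07 * w^2 := by
    have : 0 ≤ w^2 := by positivity
    nlinarith
  have h8 : 0.0164 * 80 * w^2 ≤ 4/81 * L^3 * w^3 := by
    have e1 : (0.0164:ℝ) ≤ 4/81 * L^3 := by
      norm_num at hLcu ⊢
      linarith
    have e2 : 80 * w^2 ≤ w^3 := by
      have : 0 ≤ w^2 := by positivity
      nlinarith
    have e3 : 0 ≤ w^3 := by positivity
    calc 0.0164 * 80 * w^2 = 0.0164 * (80 * w^2) := by ring
      _ ≤ 0.0164 * w^3 := by gcongr
      _ ≤ 4/81 * L^3 * w^3 := by gcongr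
  unfold Wf
  nlinarith

lemma V_nonpos (L : ℝ) (hL1 : 0.6931 < L) (hL2 : L < 0.6932) (M : ℝ) (hM : 1000 ≤ M) :
    Vf L (1/M) M ≤ 0 := by
  have hL0 : 0 < L := by linarith
  have hM0 : 0 < M := by linarith
  have hLsq : L^2 ≤ 0.6932^2 := pow_le_pow_left₀ hL0.le hL2.le 2
  have hLcu : 0.6931^3 ≤ L^3 := pow_le_pow_left₀ (by norm_num) hL1.le 3
  have hkey : Vf L (1/M) M * M^3 ≤ 0 := by
    have e : Vf L (1/M) M * M^3 = M^3 - L*(((M^2+2*M+3) - (M+1))/2)*M^2
      - L*(((M^3+3*M^2+9*M+13) - (M+1))/3 - ((M^2+2*M+3)-(M+1))/4)*M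
      - L*(4/3*(M^4+4*M^3+18*M^2+52*M+75))
      + L^2*(((M^4+4*M^3+18*M^2+52*M+75) - 2*(M^3+3*M^2+9*M+13) + (M^2+2*M+3))/8)*M
      - 4/81*L^3*(M^6+6*M^5+45*M^4+260*M^3+1125*M^2+3246*M+4683) := by
      unfold Vf
      field_simp
    rw [e]
    have t1 : 0 ≤ L*(((M^2+2*M+3) - (M+1))/2)*M^2 := by
      have : 0 ≤ ((M^2+2*M+3) - (M+1))/2 := by nlinarith
      positivity
    have t2 : 0 ≤ L*(((M^3+3*M^2+9*M+13) - (M+1))/3 - ((M^2+2*M+3)-(M+1))/4)*M := by
      have : 0 ≤ ((M^3+3*M^2+9*M+13) - (M+1))/3 - ((M^2+2*M+3)-(M+1))/4 := by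
        have : 0 ≤ M^3 := by positivity
        nlinarith
      positivity
    have t3 : 0 ≤ L*(4/3*(M^4+4*M^3+18*M^2+52*M+75)) := by positivity
    have t4 : L^2*(((M^4+4*M^3+18*M^2+52*M+75) - 2*(M^3+3*M^2+9*M+13) + (M^2+2*M+3))/8)*M
        ≤ 0.07 * (2*M^4)*M := by
      have hp : ((M^4+4*M^3+18*M^2+52*M+75) - 2*(M^3+3*M^2+9*M+13) + (M^2+2*M+3)) ≤ 2*M^4 := by
        have a1 : 1000 * M^3 ≤ M^4 := by
          have : 0 ≤ M^3 := by positivity
          nlinarith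
        have a2 : 1000 * M^2 ≤ M^3 := by
          have : 0 ≤ M^2 := by positivity
          nlinarith
        have a3 : 1000 * M ≤ M^2 := by nlinarith
        nlinarith
      have hp0 : 0 ≤ ((M^4+4*M^3+18*M^2+52*M+75) - 2*(M^3+3*M^2+9*M+13) + (M^2+2*M+3)) := by
        have : ((M^4+4*M^3+18*M^2+52*M+75) - 2*(M^3+3*M^2+9*M+13) + (M^2+2*M+3))
          = M^4 + 2*M^3 + 13*M^2 + 36*M + 52 := by ring
        rw [this]; positivity
      calc L^2*(((M^4+4*M^3+18*M^2+52*M+75) - 2*(M^3+3*M^2+9*M+13) + (M^2+2*M+3))/8)*M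
          ≤ 0.56*(((M^4+4*M^3+18*M^2+52*M+75) - 2*(M^3+3*M^2+9*M+13) + (M^2+2*M+3))/8)*M := by
            have : L^2 ≤ 0.56 := by norm_num at hLsq ⊢; linarith
            gcongr
        _ ≤ 0.56*((2*M^4)/8)*M := by gcongr
        _ = 0.07 * (2*M^4)*M := by ring
    have t5 : 0.0164*(1000 * M^5) ≤
        4/81*L^3*(M^6+6*M^5+45*M^4+260*M^3+1125*M^2+3246*M+4683) := by
      have e1 : (0.0164:ℝ) ≤ 4/81 * L^3 := by
        norm_num at hLcu ⊢
        linarith
      have e2 : 1000 * M^5 ≤ (M^6+6*M^5+45*M^4+260*M^3+1125*M^2+3246*M+4683) := by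
        have a1 : 1000 * M^5 ≤ M^6 := by
          have : 0 ≤ M^5 := by positivity
          nlinarith
        have : 0 ≤ 6*M^5+45*M^4+260*M^3+1125*M^2+3246*M+4683 := by positivity
        linarith
      gcongr
    have t6 : M^3 ≤ M^5 := by
      have : 0 ≤ M^3 := by positivity
      nlinarith
    have t7 : 0 ≤ M^5 := by positivity
    nlinarith
  have hM3 : 0 < M^3 := by positivity
  by_contra hcon
  push_neg at hcon
  have : 0 < Vf L (1/M) M * M^3 := by positivity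
  linarith

end Pool.Agent.H297.ErdosPow
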