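import Pool.Agent.H297.ErdosPow1

set_option autoImplicit false

namespace Pool.Agent.H297.ErdosPow

open Finset

lemma term_ge (L x j t : ℝ) (hL0 : 0 < L) (hx0 : 0 < x) (hx1 : x ≤ 1/4)
    (hj' : j = 0 ∨ 1 ≤ j) (hy : j*x ≤ 1/4) (ht : t = L / (-Real.log (1-x))) :
    Real.exp (-(j*L)) * Wf L x j ≤ Real.exp (t * Real.log (1 - j*x)) := by
  have hj : 0 ≤ j := by rcases hj' with h | h <;> linarith
  set A : ℝ := (j^2-j)/2 with hAdef
  set B : ℝ := (j^3-j)/3-(j^2-j)/4 with hBdef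
  set C : ℝ := 4/3*j^4 with hCdef
  have hA : 0 ≤ A := by
    rcases hj' with h | h
    · rw [hAdef, h]; norm_num
    · rw [hAdef]; nlinarith
  have hB : 0 ≤ B := by
    rcases hj' with h | h
    · rw [hBdef, h]; norm_num
    · have e : B = j*(j-1)*((j+1)/3 - 1/4) := by rw [hBdef]; ring
      rw [e]
      have h1 : 0 ≤ j - 1 := by linarith
      have h2 : 0 ≤ (j+1)/3 - 1/4 := by linarith
      positivity
  have hC : 0 ≤ C := by positivity
  set U : ℝ := L*(A*x + B*x^2 + C*x^3) with hUdef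
  have hU : 0 ≤ U := by positivity
  set s : ℝ := -Real.log (1-x) with hsdef
  set D : ℝ := x + x^2/2 + x^3/3 with hDdef
  have hD0 : 0 < D := by positivity
  have hsD : D ≤ s := log_lower x hx0.le (by linarith)
  have hs0 : 0 < s := lt_of_lt_of_le hD0 hsD
  have hjx0 : 0 ≤ j*x := by positivity
  set Y : ℝ := (j*x) + (j*x)^2/2 + (j*x)^3/3 + 4/3*(j*x)^4 with hYdef
  have hY : -Real.log (1 - j*x) ≤ Y := log_upper (j*x) hjx0 hy
  have hY0 : 0 ≤ Y := by positivity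
  have ht0 : 0 < t := by rw [ht]; positivity
  have htD : t ≤ L / D := by
    rw [ht]
    gcongr
  have h1 : t * (-Real.log (1 - j*x)) ≤ j*L + U := by
    calc t * (-Real.log (1 - j*x)) ≤ t * Y := by gcongr
      _ ≤ (L/D) * Y := by gcongr
      _ ≤ j*L + U := by
        rw [div_mul_eq_mul_div, div_le_iff₀ hD0]
        have e : (j*L+U)*D - L*Y = L*x*(x^3*(B/2+A/3) + x^4*(C/2+B/3) + x^5*(C/3)) := by
          rw [hUdef, hDdef, hYdef, hAdef, hBdef, hCdef]
          ring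
        have : 0 ≤ L*x*(x^3*(B/2+A/3) + x^4*(C/2+B/3) + x^5*(C/3)) := by positivity
        linarith
  have h2 : Real.exp (-(j*L)) * Real.exp (-U) ≤ Real.exp (t * Real.log (1 - j*x)) := by
    rw [← Real.exp_add]
    apply Real.exp_le_exp.2
    linarith
  have h3 := exp_neg_ge U hU
  have h4 : Wf L x j ≤ 1 - U + U^2/2 - U^3/6 := by
    have hUA : L*A*x ≤ U := by
      rw [hUdef]
      have : 0 ≤ L*(B*x^2 + C*x^3) := by positivity
      linarith
    have hLAx : 0 ≤ L*A*x := by positivity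
    have hsq : (L*A*x)^2 ≤ U^2 := pow_le_pow_left₀ hLAx hUA 2
    have hU2 : U ≤ 2/3*L*j^2*x := by
      have a1 : A*x ≤ j^2*x/2 := by
        have : A ≤ j^2/2 := by rw [hAdef]; linarith
        calc A*x ≤ (j^2/2)*x := by gcongr
          _ = j^2*x/2 := by ring
      have a2 : B*x^2 ≤ j^2*x/12 := by
        have : B ≤ j^3/3 := by
          have : 0 ≤ (j^2-j)/4 := by have := hA; rw [hAdef] at this; linarith
          rw [hBdef]; linarith
        calc B*x^2 ≤ (j^3/3)*x^2 := by gcongr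
          _ = j^2*x/3*(j*x) := by ring
          _ ≤ j^2*x/3*(1/4) := by gcongr
          _ = j^2*x/12 := by ring
      have a3 : C*x^3 ≤ j^2*x/12 := by
        calc C*x^3 = 4/3*(j^2*x)*(j*x)^2 := by rw [hCdef]; ring
          _ ≤ 4/3*(j^2*x)*(1/4)^2 := by gcongr
          _ = j^2*x/12 := by ring
      calc U = L*(A*x + B*x^2 + C*x^3) := hUdef
        _ ≤ L*(j^2*x/2 + j^2*x/12 + j^2*x/12) := by gcongr
        _ = 2/3*L*j^2*x := by ring
    have hcu : U^3 ≤ (2/3*L*j^2*x)^3 := pow_le_pow_left₀ hU hU2 3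
    have e : Wf L x j = 1 - U + (L*A*x)^2/2 - (2/3*L*j^2*x)^3/6 := by
      unfold Wf
      rw [hUdef, hAdef, hBdef, hCdef]
      ring
    rw [e]
    linarith
  calc Real.exp (-(j*L)) * Wf L x j ≤ Real.exp (-(j*L)) * Real.exp (-U) := by
        have := (Real.exp_pos (-(j*L))).le
        apply mul_le_mul_of_nonneg_left _ this
        linarith
    _ ≤ _ := h2

lemma V_zero_gt (L x z : ℝ) (hL1 : 0.69314 < L) (hL2 : L < 0.69315) (hx0 : 0 < x)
    (hx1 : x ≤ 1/1400) (hz : z = L*x*(1 - x/2 - x^2)) :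
    1 - z + z^2/2 < Vf L x 0 := by
  have hL0 : 0 < L := by linarith
  have hz0 : 0 ≤ z := by
    rw [hz]
    have : 0 ≤ 1 - x/2 - x^2 := by nlinarith
    positivity
  have hz1 : z ≤ L*x := by
    rw [hz]
    have h1 : 1 - x/2 - x^2 ≤ 1 := by nlinarith
    have h2 : 0 ≤ L*x := by positivity
    nlinarith
  have hz2 : z^2 ≤ (L*x)^2 := pow_le_pow_left₀ hz0 hz1 2
  have hV : Vf L x 0 = 1 - L*x - 7/2*L*x^2 - 100*L*x^3 + 13/2*L^2*x^2
      - 4/81*4683*L^3*x^3 := by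
    unfold Vf
    ring
  have hLsq : 0.69314^2 ≤ L^2 := pow_le_pow_left₀ (by norm_num) hL1.le 2
  have hLcu : L^3 ≤ 0.69315^3 := pow_le_pow_left₀ hL0.le hL2.le 3
  have hx2 : 0 < x^2 := by positivity
  have k1 : 0.1100 ≤ 6*L^2 - 4*L := by nlinarith
  have k2 : (101*L + 4/81*4683*L^3) ≤ 147.1 := by
    norm_num at hLcu ⊢
    linarith
  have k3 : (101*L + 4/81*4683*L^3)*x < 0.1100 := by
    have : 0 ≤ 101*L + 4/81*4683*L^3 := by positivity
    calc (101*L + 4/81*4683*L^3)*x ≤ 147.1*(1/1400) := by gcongr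
      _ < 0.1100 := by norm_num
  have k4 : 0 < x^2*((6*L^2 - 4*L) - (101*L + 4/81*4683*L^3)*x) := by
    apply mul_pos hx2
    linarith
  have k5 : Vf L x 0 - (1 - L*x + L*x^2/2 + L*x^3 + (L*x)^2/2)
      = x^2*((6*L^2 - 4*L) - (101*L + 4/81*4683*L^3)*x) := by
    rw [hV]; ring
  have k6 : 1 - z = 1 - L*x + L*x^2/2 + L*x^3 := by rw [hz]; ring
  linarith

end Pool.Agent.H297.ErdosPow
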