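import Pool.Agent.H297.ErdosPow2

set_option autoImplicit false

namespace Pool.Agent.H297.ErdosPow

open Finset

theorem large (m n : ℕ) (hm : 1400 ≤ m) (h : (1 - 1 / (m:ℝ))^n > 1/2) :
    ((m:ℝ)+1)^n < ∑ j ∈ range m, ((m:ℝ) - j)^n := by
  have hmR : (1400:ℝ) ≤ (m:ℝ) := by exact_mod_cast hm
  have hm0 : (0:ℝ) < (m:ℝ) := by linarith
  set x : ℝ := 1 / (m:ℝ) with hx
  have hx0 : 0 < x := by positivity
  have hx1 : x ≤ 1/1400 := by
    rw [hx]; gcongr
  have hxm : x * m = 1 := by rw [hx]; field_simp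
  set L : ℝ := Real.log 2 with hL
  have hLa : 0.6931471803 < L := Real.log_two_gt_d9
  have hLb : L < 0.6931471808 := Real.log_two_lt_d9
  have hL0 : 0 < L := by linarith
  set s : ℝ := -Real.log (1-x) with hs
  have hs1 : x + x^2/2 + x^3/3 ≤ s := log_lower x hx0.le (by linarith)
  have hs2 : s ≤ x + x^2/2 + x^3/3 + 4/3*x^4 := log_upper x hx0.le (by linarith)
  have hs0 : 0 < s := lt_of_lt_of_le (by positivity) hs1
  set t : ℝ := L / s with ht
  have ht0 : 0 < t := by positivity
  -- n ≤ t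
  have hnt : (n:ℝ) ≤ t := by
    rw [ht, le_div_iff₀ hs0]
    have h1 : Real.log (1/2) < Real.log ((1 - x)^n) := Real.log_lt_log (by norm_num) h
    rw [Real.log_pow, one_div, Real.log_inv] at h1
    have : (n:ℝ) * Real.log (1-x) = -(n * s) := by rw [hs]; ring
    linarith
  set z0 : ℝ := -(t * Real.log (1 - x^2)) with hz0
  set z : ℝ := L*x*(1 - x/2 - x^2) with hz
  have hzz : z ≤ z0 := by
    have h1 : Real.log (1 - x^2) ≤ -x^2 := by
      have := Real.log_le_sub_one_of_pos (show 0 < 1 - x^2 by nlinarith)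
      linarith
    have h2 : t * x^2 ≤ z0 := by
      rw [hz0]
      have : t * Real.log (1 - x^2) ≤ t * (-x^2) := by gcongr
      linarith
    have h3 : z ≤ t * x^2 := by
      rw [ht, div_mul_eq_mul_div, le_div_iff₀ hs0]
      have h5 : 0 ≤ 1 - x/2 - x^2 := by nlinarith
      have h4 : (1 - x/2 - x^2) * s ≤ x := by
        calc (1 - x/2 - x^2) * s ≤ (1 - x/2 - x^2) * (x + x^2/2 + x^3/3 + 4/3*x^4) := by gcongr
          _ = x - (x^3*(11/12 - 2/3*x) + x^5 + 4/3*x^6) := by ring
          _ ≤ x := by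
            have h6 : 0 ≤ 11/12 - 2/3*x := by linarith
            have : 0 ≤ x^3*(11/12 - 2/3*x) + x^5 + 4/3*x^6 := by positivity
            linarith
      calc z * s = L*x*((1 - x/2 - x^2) * s) := by rw [hz]; ring
        _ ≤ L*x*x := by gcongr
        _ = L*x^2 := by ring
    linarith
  have hV : 1 - z + z^2/2 < Vf L x 0 := V_zero_gt L x z (by linarith) (by linarith) hx0 hx1 hz
  have hznn : 0 ≤ z := by
    rw [hz]
    have : 0 ≤ 1 - x/2 - x^2 := by nlinarith
    positivity
  have hexpz := exp_neg_le z hznn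
  have hV2 : Real.exp (-z0) < Vf L x 0 := by
    have : Real.exp (-z0) ≤ Real.exp (-z) := Real.exp_le_exp.2 (by linarith)
    linarith
  -- termwise
  have hterm : ∀ j ∈ range m, Real.exp z0 * ((1/2:ℝ)^(j+1) * Wf L x j)
      ≤ (((m:ℝ) - j)/((m:ℝ)+1))^n := by
    intro j hj
    have hjm : j < m := Finset.mem_range.1 hj
    have hjmR : (j:ℝ) + 1 ≤ (m:ℝ) := by exact_mod_cast hjm
    have hj0 : (0:ℝ) ≤ (j:ℝ) := by positivity
    have hjx : 0 < 1 - (j:ℝ)*x := by
      have : (1 - (j:ℝ)*x) = ((m:ℝ) - j) * x := by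
        have := hxm; linarith
      rw [this]
      apply mul_pos _ hx0
      linarith
    have h1x : 0 < 1 - x := by linarith
    have h1x2 : 0 < 1 + x := by linarith
    have hr : ((m:ℝ) - j)/((m:ℝ)+1) = (1 - j*x)/(1+x) := by
      rw [hx]; field_simp
    set r : ℝ := ((m:ℝ) - j)/((m:ℝ)+1) with hrdef
    have hr0 : 0 < r := by
      rw [hr]; positivity
    have hr1 : r ≤ 1 := by
      rw [hr, div_le_one h1x2]
      have : 0 ≤ (j:ℝ)*x := by positivity
      linarith
    have hlogr : Real.log r ≤ 0 := Real.log_nonpos hr0.le hr1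
    have hrn : r^n = Real.exp (n * Real.log r) := by
      rw [Real.exp_nat_mul, Real.exp_log hr0]
    have hge : Real.exp (t * Real.log r) ≤ r^n := by
      rw [hrn]
      apply Real.exp_le_exp.2
      nlinarith
    have hlog2 : Real.log r = Real.log (1 - j*x) - Real.log (1 - x^2) + Real.log (1-x) := by
      rw [hr, Real.log_div hjx.ne' h1x2.ne']
      have : (1 - x^2) = (1+x)*(1-x) := by ring
      rw [this, Real.log_mul h1x2.ne' h1x.ne']
      ring
    have htl : t * Real.log (1-x) = -L := by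
      have : Real.log (1-x) = -s := by rw [hs]; ring
      rw [this, ht]
      field_simp
    have heq : Real.exp (t * Real.log r)
        = Real.exp z0 * ((1/2) * Real.exp (t * Real.log (1 - j*x))) := by
      have e1 : t * Real.log r = z0 + (-L + t * Real.log (1 - j*x)) := by
        rw [hlog2, hz0, ← htl]; ring
      have e2 : Real.exp (-L) = 1/2 := by
        rw [Real.exp_neg, hL, Real.exp_log (by norm_num)]
        norm_num
      rw [e1, Real.exp_add, Real.exp_add, e2]
    have hW : (1/2:ℝ)^(j+1) * Wf L x j ≤ (1/2) * Real.exp (t * Real.log (1 - j*x)) := by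
      by_cases h4 : 4 * (j:ℝ) ≤ m
      · have hjx4 : (j:ℝ)*x ≤ 1/4 := by
          have : (j:ℝ)*x ≤ (m/4)*x := by
            apply mul_le_mul_of_nonneg_right _ hx0.le
            linarith
          linarith
        have hj01 : (j:ℝ) = 0 ∨ 1 ≤ (j:ℝ) := by
          rcases Nat.eq_zero_or_pos j with h0 | h0
          · left; exact_mod_cast h0
          · right; exact_mod_cast h0
        have key := term_ge L x j t hL0 hx0 (by linarith) hj01 hjx4 ht
        have e3 : Real.exp (-((j:ℝ)*L)) = (1/2)^j := by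
          rw [Real.exp_neg, Real.exp_nat_mul, hL, Real.exp_log (by norm_num)]
          rw [one_div, inv_pow]
        rw [e3] at key
        calc (1/2:ℝ)^(j+1) * Wf L x j = (1/2) * ((1/2)^j * Wf L x j) := by ring
          _ ≤ _ := by gcongr
      · push Not at h4
        have hw : 80 ≤ (j:ℝ)^2 * x := by
          have h5 : ((m:ℝ)/4)^2 ≤ (j:ℝ)^2 := by
            apply pow_le_pow_left₀ (by positivity)
            linarith
          calc (80:ℝ) ≤ m/16 := by linarith
            _ = ((m:ℝ)/4)^2 * x := by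
              have : ((m:ℝ)/4)^2 * x = (m/16) * (x*m) := by ring
              rw [this, hxm]; ring
            _ ≤ (j:ℝ)^2 * x := by gcongr
        have hj1 : (1:ℝ) ≤ j := by linarith
        have hWn := W_nonpos L ((j:ℝ)^2 * x) x j (by linarith) (by linarith) hj1 hx0 rfl hw
        have hp : 0 ≤ (1/2) * Real.exp (t * Real.log (1 - j*x)) := by positivity
        have hp2 : (1/2:ℝ)^(j+1) * Wf L x j ≤ 0 := by
          apply mul_nonpos_of_nonneg_of_nonpos _ hWn
          positivity
        linarith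
    calc Real.exp z0 * ((1/2:ℝ)^(j+1) * Wf L x j)
        ≤ Real.exp z0 * ((1/2) * Real.exp (t * Real.log (1 - j*x))) := by
          apply mul_le_mul_of_nonneg_left hW (Real.exp_pos _).le
      _ = Real.exp (t * Real.log r) := heq.symm
      _ ≤ r^n := hge
  have hsum := Finset.sum_le_sum hterm
  rw [← Finset.mul_sum, sum_W] at hsum
  have hVm : Vf L x m ≤ 0 := V_nonpos L (by linarith) (by linarith) m (by linarith)
  have hV3 : Vf L x 0 ≤ Vf L x 0 - (1/2)^m * Vf L x m := by
    have : (1/2:ℝ)^m * Vf L x m ≤ 0 := by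
      apply mul_nonpos_of_nonneg_of_nonpos _ hVm
      positivity
    linarith
  have h1lt : 1 < Real.exp z0 * (Vf L x 0 - (1/2)^m * Vf L x m) := by
    calc (1:ℝ) = Real.exp z0 * Real.exp (-z0) := by rw [← Real.exp_add]; simp
      _ < Real.exp z0 * Vf L x 0 := by
        apply mul_lt_mul_of_pos_left hV2 (Real.exp_pos _)
      _ ≤ _ := by
        apply mul_le_mul_of_nonneg_left hV3 (Real.exp_pos _).le
  have hfin : 1 < ∑ j ∈ range m, (((m:ℝ) - j)/((m:ℝ)+1))^n := lt_of_lt_of_le h1lt hsum
  have hmp : 0 < ((m:ℝ)+1)^n := by positivity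
  calc ((m:ℝ)+1)^n = ((m:ℝ)+1)^n * 1 := by ring
    _ < ((m:ℝ)+1)^n * ∑ j ∈ range m, (((m:ℝ) - j)/((m:ℝ)+1))^n := by
      apply mul_lt_mul_of_pos_left hfin hmp
    _ = ∑ j ∈ range m, ((m:ℝ) - j)^n := by
      rw [Finset.mul_sum]
      apply Finset.sum_congr rfl
      intro j _
      rw [div_pow]
      field_simp

end Pool.Agent.H297.ErdosPow
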