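import Mathlib

set_option autoImplicit false

namespace Pool.Agent.H297.ErdosPow

open Finset

def psum (m n : ℕ) : ℕ → ℕ
  | 0 => 0
  | k+1 => psum m n k + (m - k)^n

def nb (m : ℕ) : ℕ := ((2*m-1)*693147181)/2000000000

def chk (m : ℕ) : Bool :=
  Nat.ble (2*(m-1)^(nb m + 1)) (m^(nb m + 1)) &&
  Nat.blt ((m+1)^(nb m)) (psum m (nb m) (min m 26))

def chkAll : ℕ → Bool
  | 0 => true
  | k+1 => chk (k+3) && chkAll k

lemma chkAll_true : chkAll 1397 = true := by decide +kernel

lemma chkAll_spec (K : ℕ) (h : chkAll K = true) (k : ℕ) (hk : k < K) : chk (k+3) = true := by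
  induction K with
  | zero => omega
  | succ K ih =>
    simp only [chkAll, Bool.and_eq_true] at h
    rcases Nat.lt_succ_iff_lt_or_eq.1 hk with h1 | h1
    · exact ih h.2 h1
    · rw [h1]; exact h.1

lemma psum_le (m n k : ℕ) (hk : k ≤ m) : psum m n k ≤ ∑ j ∈ range m, (m - j)^n := by
  have h1 : psum m n k = ∑ j ∈ range k, (m - j)^n := by
    clear hk
    induction k with
    | zero => simp [psum]
    | succ k ih => rw [psum, ih, Finset.sum_range_succ]
  rw [h1]
  apply Finset.sum_le_sum_of_subset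
  exact Finset.range_mono hk

lemma small (m : ℕ) (h3 : 3 ≤ m) (h : m < 1400) :
    ∃ n0 : ℕ, 2*(m-1)^(n0+1) ≤ m^(n0+1) ∧ (m+1)^n0 < ∑ j ∈ range m, (m - j)^n0 := by
  have hc := chkAll_spec 1397 chkAll_true (m-3) (by omega)
  rw [show m - 3 + 3 = m by omega] at hc
  simp only [chk, Bool.and_eq_true] at hc
  refine ⟨nb m, Nat.le_of_ble_eq_true hc.1, ?_⟩
  have h2 : (m+1)^(nb m) < psum m (nb m) (min m 26) := by
    have := hc.2
    simpa [Nat.blt_eq] using this
  exact lt_of_lt_of_le h2 (psum_le m (nb m) (min m 26) (min_le_left _ _))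

end Pool.Agent.H297.ErdosPow
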