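import Mathlib
import Pool.Agent.H297.ErdosPow3
import Pool.Agent.H297.ErdosPow4

set_option autoImplicit false


namespace Pool.Agent.H297.ErdosPowFinal

open Finset

/-- the elementary half: `1^n + ... + (m-2)^n < (m-1)^n` -/
lemma partA (m n : ℕ) (hm : 3 ≤ m) (h : 2 * (m-2)^n < (m-1)^n) (k : ℕ) (hk : k ≤ m - 2) :
    ∑ i ∈ Finset.Icc 1 k, i^n < (k+1)^n := by
  induction k with
  | zero => simp
  | succ k ih =>
    have ih' := ih (by omega)
    rw [Finset.sum_Icc_succ_top (by omega)]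
    have h1 : (k+1)^n * (m-1)^n ≤ (k+2)^n * (m-2)^n := by
      rw [← mul_pow, ← mul_pow]
      apply Nat.pow_le_pow_left
      obtain ⟨d, rfl⟩ : ∃ d, m = k + 3 + d := ⟨m - (k+3), by omega⟩
      have e1 : k + 3 + d - 1 = k + 2 + d := by omega
      have e2 : k + 3 + d - 2 = k + 1 + d := by omega
      rw [e1, e2]
      nlinarith
    have hpos : 0 < (m-1)^n := by
      apply pow_pos; omega
    have h2 : 2 * (k+1)^n < (k+2)^n := by
      have hk2 : 0 < (k+2)^n := by positivity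
      have : (2 * (k+1)^n) * (m-1)^n < (k+2)^n * (m-1)^n := by
        calc (2 * (k+1)^n) * (m-1)^n = 2 * ((k+1)^n * (m-1)^n) := by ring
          _ ≤ 2 * ((k+2)^n * (m-2)^n) := by gcongr
          _ = (k+2)^n * (2 * (m-2)^n) := by ring
          _ < (k+2)^n * (m-1)^n := by
            apply Nat.mul_lt_mul_of_pos_left h hk2
      exact lt_of_mul_lt_mul_right this hpos.le
    calc ∑ i ∈ Finset.Icc 1 k, i^n + (k+1)^n < (k+1)^n + (k+1)^n := by omega
      _ = 2 * (k+1)^n := by ring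
      _ ≤ (k+1+1)^n := h2.le

lemma sum_reflect (m n : ℕ) : ∑ i ∈ Finset.Icc 1 m, i^n = ∑ j ∈ range m, (m - j)^n := by
  have h1 : ∑ i ∈ Finset.Icc 1 m, i^n = ∑ i ∈ range m, (i+1)^n := by
    rw [Finset.range_eq_Ico, Finset.sum_Ico_add' (fun i => i^n) 0 m 1]
    congr 1
  rw [h1, ← Finset.sum_range_reflect]
  apply Finset.sum_congr rfl
  intro j hj
  have := Finset.mem_range.1 hj
  congr 1
  omega

/-- For all n ≥ 1, m ≥ 2 with (1−1/m)^n > 1/2 and (1−1/(m−1))^n < 1/2: (m−1)^n exceeds 1^n+…+(m−2)^n and (m+1)^n is less than 1^n+…+m^n. -/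
theorem result :
    ∀ m n : ℕ, 1 ≤ n → 2 ≤ m →
      (1 - 1 / (m : ℝ)) ^ n > 1 / 2 →
      (1 - 1 / ((m : ℝ) - 1)) ^ n < 1 / 2 →
      (m - 1) ^ n > ∑ i ∈ Finset.Icc 1 (m - 2), i ^ n ∧
      (m + 1) ^ n < ∑ i ∈ Finset.Icc 1 m, i ^ n := by
  intro m n hn hm2 h1 h2
  have hm0 : (0:ℝ) < (m:ℝ) := by positivity
  -- m ≥ 3
  have hm : 3 ≤ m := by
    by_contra hcon
    have : m = 2 := by omega
    subst this
    norm_num at h1
    have h3 : ((1:ℝ)/2)^n ≤ (1/2)^1 := pow_le_pow_of_le_one (by norm_num) (by norm_num) hn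
    norm_num at h3
    have h4 : ((2:ℝ)^n)⁻¹ ≤ 2⁻¹ := by
      have := h3
      simpa using this
    first
      | linarith
      | (norm_num at h1 h3 h4; linarith)
  have hmR : (3:ℝ) ≤ (m:ℝ) := by exact_mod_cast hm
  have hA : 2 * (m-2)^n < (m-1)^n := by
    have e : (1 - 1 / ((m : ℝ) - 1)) = ((m:ℝ) - 2)/((m:ℝ)-1) := by
      have : (m:ℝ) - 1 ≠ 0 := by linarith
      field_simp
      ring
    rw [e, div_pow, div_lt_iff₀ (by apply pow_pos; linarith)] at h2
    have h3 : 2 * ((m:ℝ)-2)^n < ((m:ℝ)-1)^n := by linarith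
    have c1 : (((m-2 : ℕ)):ℝ) = (m:ℝ) - 2 := by
      rw [Nat.cast_sub (by omega)]; norm_num
    have c2 : (((m-1 : ℕ)):ℝ) = (m:ℝ) - 1 := by
      rw [Nat.cast_sub (by omega)]; norm_num
    rw [← c1, ← c2] at h3
    exact_mod_cast h3
  constructor
  · have := partA m n hm hA (m-2) le_rfl
    rw [show m - 2 + 1 = m - 1 by omega] at this
    exact this
  · rw [sum_reflect]
    by_cases hbig : 1400 ≤ m
    · have h := Pool.Agent.H297.ErdosPow.large m n hbig h1
      have e : ∑ j ∈ range m, ((m:ℝ) - j)^n = ((∑ j ∈ range m, (m - j)^n : ℕ) : ℝ) := by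
        push_cast
        apply Finset.sum_congr rfl
        intro j hj
        have := Finset.mem_range.1 hj
        rw [Nat.cast_sub this.le]
      rw [e] at h
      exact_mod_cast h
    · obtain ⟨n0, ha, hb⟩ := Pool.Agent.H297.ErdosPow.small m hm (by omega)
      have hB : m^n < 2 * (m-1)^n := by
        have e : (1 - 1 / (m : ℝ)) = ((m:ℝ) - 1)/(m:ℝ) := by
          field_simp
        rw [e, div_pow, gt_iff_lt, lt_div_iff₀ (by positivity)] at h1
        have h3 : (m:ℝ)^n < 2 * ((m:ℝ)-1)^n := by linarith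
        have c2 : (((m-1 : ℕ)):ℝ) = (m:ℝ) - 1 := by
          rw [Nat.cast_sub (by omega)]; norm_num
        rw [← c2] at h3
        exact_mod_cast h3
      have hnn : n ≤ n0 := by
        by_contra hcon
        push Not at hcon
        obtain ⟨d, rfl⟩ : ∃ d, n = n0 + 1 + d := ⟨n - (n0+1), by omega⟩
        have : 2 * (m-1)^(n0+1+d) ≤ m^(n0+1+d) := by
          rw [pow_add, pow_add m]
          calc 2 * ((m-1)^(n0+1) * (m-1)^d) = (2 * (m-1)^(n0+1)) * (m-1)^d := by ring
            _ ≤ m^(n0+1) * m^d := by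
              apply Nat.mul_le_mul ha
              apply Nat.pow_le_pow_left
              omega
        omega
      obtain ⟨d, rfl⟩ : ∃ d, n0 = n + d := ⟨n0 - n, by omega⟩
      have h5 : (m+1)^n * (m+1)^d < (∑ j ∈ range m, (m - j)^n) * (m+1)^d := by
        rw [← pow_add]
        refine lt_of_lt_of_le hb ?_
        rw [Finset.sum_mul]
        apply Finset.sum_le_sum
        intro j _
        rw [pow_add]
        apply Nat.mul_le_mul_left
        apply Nat.pow_le_pow_left
        omega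
      exact lt_of_mul_lt_mul_right h5 (Nat.zero_le _)

end Pool.Agent.H297.ErdosPowFinal
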